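import Pool.Agent.L0h82.GT.Stm

set_option autoImplicit false

namespace Pool.Agent.L0h29.GT

open Pool.Agent.L0h82.GT

/-- the conclusion of `K2` as a Boolean. -/
def kc (c6 c5 : ℕ) : Bool :=
  (LD.any fun x => Nat.beq c6 x) &&
    (HF.all fun e => (!(Pool.Agent.L0h82.GT.cond (dg c6 5) e.1)) || (!(inv2 c5 c6 e.1 e.2)))

/-- search. -/
def k2 : Bool :=
  L66.all fun c6 => L66.all fun c5 => bif Nat.beq (dg c5 5) (dg c6 5) then
    (kc c6 c5 ||
    L66.all fun c4 => bif Nat.beq (dg c4 4) (dg c5 4) then bif Nat.beq (dg c4 5) (dg c6 4) then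
    (L66.all fun c3 => bif Nat.beq (dg c3 3) (dg c4 3) then bif Nat.beq (dg c3 4) (dg c5 3) then
      bif Nat.beq (dg c3 5) (dg c6 3) then
    (L66.all fun c2 => bif Nat.beq (dg c2 2) (dg c3 2) then bif Nat.beq (dg c2 3) (dg c4 2) then
      bif Nat.beq (dg c2 4) (dg c5 2) then bif Nat.beq (dg c2 5) (dg c6 2) then
    (L66.all fun c1 => bif Nat.beq (dg c1 1) (dg c2 1) then bif Nat.beq (dg c1 2) (dg c3 1) then
      bif Nat.beq (dg c1 3) (dg c4 1) then bif Nat.beq (dg c1 4) (dg c5 1) then
      bif Nat.beq (dg c1 5) (dg c6 1) then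
    (L66.all fun c0 => bif Nat.beq (dg c0 0) (dg c1 0) then bif Nat.beq (dg c0 1) (dg c2 0) then
      bif Nat.beq (dg c0 2) (dg c3 0) then bif Nat.beq (dg c0 3) (dg c4 0) then
      bif Nat.beq (dg c0 4) (dg c5 0) then bif Nat.beq (dg c0 5) (dg c6 0) then
      false else true else true else true else true else true else true)
      else true else true else true else true else true)
      else true else true else true else true)
      else true else true else true)
      else true else true)
      else true

theorem k2_true : k2 = true := by decide +kernel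

theorem be {a b : ℕ} {r : Bool} (h : (bif Nat.beq a b then r else true) = true) (hab : a = b) :
    r = true := by
  subst hab
  simpa using h

theorem al {l : List ℕ} {p : ℕ → Bool} (h : l.all p = true) {x : ℕ} (hx : x ∈ l) : p x = true :=
  List.all_eq_true.mp h x hx

theorem t_K2 : K2 := by
  intro c6 h6 c5 h5 e55 c4 h4 e44 e45 c3 h3 e33 e34 e35 c2 h2 e22 e23 e24 e25
    c1 h1 e11 e12 e13 e14 e15 c0 h0 e00 e01 e02 e03 e04 e05
  have H := be (al (al k2_true h6) h5) e55
  rcases Bool.or_eq_true _ _ |>.mp H with H | H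
  · unfold kc at H
    rw [Bool.and_eq_true] at H
    obtain ⟨Ha, Hb⟩ := H
    refine ⟨?_, ?_⟩
    · obtain ⟨x, hx, hxx⟩ := List.any_eq_true.mp Ha
      rw [Nat.eq_of_beq_eq_true hxx]
      exact hx
    · intro e he hc
      have := List.all_eq_true.mp Hb e he
      rw [hc] at this
      simpa using this
  · exfalso
    have H := be (be (al H h4) e44) e45
    have H := be (be (be (al H h3) e33) e34) e35
    have H := be (be (be (be (al H h2) e22) e23) e24) e25
    have H := be (be (be (be (be (al H h1) e11) e12) e13) e14) e15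
    have H := be (be (be (be (be (be (al H h0) e00) e01) e02) e03) e04) e05
    exact Bool.false_ne_true H

end Pool.Agent.L0h29.GT
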